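import Pool.Agent.Y557.U.GenMain

/-!
# Vojta's inequality with truncated counting function on all rational curves of all pairs `(X, D)`

`K` is a number field. Let `X` be any smooth projective variety over `K` and `D` a divisor on `X`.
Write `K_X + D = κ₁ H₁ + κ₂ H₂` with very ample `H₁, H₂` (for example `κ₁ = 1`, `κ₂ = -1`), embed
`X` by `H₁, H₂` in `ℙ^(n₁-1) × ℙ^(n₂-1)` and let `D` be given there by bihomogeneous forms
`F 0, ..., F (k-1)` of bidegree `(q, r)`. The rational curves `C` in `X` over `K` with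
`H₁ · C = a`, `H₂ · C = b`, together with `D` and a finite set `S` of primes, are considered all at
once, if their heights are at most `η log X`, and if `C` meets `D` in `p ≥ 3` points (of the
normalisation of `C`) which are `K`-rational. There is one set of exceptional points, smaller by a
power of `X` than the set of the points `Q` of each single curve with `N^(1)_S(D, Q) ≤ log X`, such
that all other such points `Q` of all curves, of whatever height, satisfy
`N^(1)_S(D, Q) ≥ κ₁ h(H₁, Q) + κ₂ h(H₂, Q) - A` if `κ₁ a + κ₂ b < p`. So, for every `ε > 0`, the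
conjectured inequality holds for almost all points, with a parameter in `K`, of all these curves if
`(K_X + D) · C ≤ p`.
-/

set_option autoImplicit false

namespace Pool.Agent.Results.MP_9ec3f0_nt.AllRationalCurvesAllPairs

open NumberField IsDedekindDomain Polynomial

/-- the restriction `F (f; g)` of a form `F` in two groups of variables to the curve
`t ↦ (f (t), g (t))` -/
noncomputable def restriction {K : Type} [Field K] {n₁ n₂ : ℕ} (f : Fin n₁ → K[X])
    (g : Fin n₂ → K[X]) (F : MvPolynomial (Fin n₁ ⊕ Fin n₂) K) : K[X] :=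
  MvPolynomial.aeval (Sum.elim f g) F

/-- `t ↦ (f 0 (t) : ... : f (n-1) (t))` is a map from the projective line to a projective space
given by coprime polynomials of maximal degree `m` -/
structure IsMap {K : Type} [Field K] {n : ℕ} (m : ℕ) (f : Fin n → K[X]) : Prop where
  degree_le : ∀ i, (f i).natDegree ≤ m
  degree_eq : ∃ i, (f i).natDegree = m
  coprime : ∃ u : Fin n → K[X], ∑ i, u i * f i = 1

variable {K : Type} [Field K] [NumberField K] {n₁ n₂ k : ℕ}

/-- the normalised local height at the prime `v` of the closed subscheme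
`D : F 0 = ... = F (k-1) = 0`, the forms having bidegree `(q, r)`, at the point `(x, y)` -/
noncomputable def localHeight (F : Fin k → MvPolynomial (Fin n₁ ⊕ Fin n₂) K) (q r : ℕ)
    (v : HeightOneSpectrum (𝓞 K)) (x : Fin n₁ → K) (y : Fin n₂ → K) : ℝ :=
  Real.log ((⨆ s : (Σ j, (F j).support), FinitePlace.mk v ((F s.1).coeff s.2)) *
    ((⨆ i, FinitePlace.mk v (x i)) ^ q * (⨆ i, FinitePlace.mk v (y i)) ^ r) /
    ⨆ j, FinitePlace.mk v (MvPolynomial.eval (Sum.elim x y) (F j)))

/-- the truncated counting function `N^(1)_S(D, Q)`: the sum of `log N(v)` over the primes `v ∉ S`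
where the local height of `D` is positive -/
noncomputable def counting (S : Set (HeightOneSpectrum (𝓞 K)))
    (F : Fin k → MvPolynomial (Fin n₁ ⊕ Fin n₂) K) (q r : ℕ) (x : Fin n₁ → K)
    (y : Fin n₂ → K) : ℝ :=
  ∑ᶠ v ∈ {v : HeightOneSpectrum (𝓞 K) | v ∉ S ∧ 0 < localHeight F q r v x y},
    Real.log (Ideal.absNorm v.asIdeal : ℝ)

open Classical in
/-- the data: a finite set `S` of primes, a curve `C : t ↦ (f (t), g (t))` with components of
degrees `a` and `b`, and forms `F 0, ..., F (k-1)` of bidegree `(q, r)`, which do not all vanish on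
`C` and define `D`; all zeros of the greatest common divisor `G` of the restrictions of the `F j`
are in `K`, and together with infinity, if all restrictions have degree less than `a q + b r`, they
are `p` points of the projective line, the points over `D`; the product of the norms of the primes
in `S` is at most `exp B`, and the vectors of the coefficients of the `f i`, of the `g i` and of
all `F j` have heights (relative to `K`) at most `B` -/
structure Admissible (a b q r p : ℕ) (B : ℝ) (S : Finset (HeightOneSpectrum (𝓞 K)))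
    (f : Fin n₁ → K[X]) (g : Fin n₂ → K[X]) (F : Fin k → MvPolynomial (Fin n₁ ⊕ Fin n₂) K) :
    Prop where
  first : IsMap a f
  second : IsMap b g
  bihomogeneous : ∀ j, (F j).IsWeightedHomogeneous (Sum.elim (fun _ : Fin n₁ => ((1, 0) : ℕ × ℕ))
      (fun _ : Fin n₂ => ((0, 1) : ℕ × ℕ))) (q, r)
  points : ∃ G : K[X], G ≠ 0 ∧ G.Splits ∧ (∀ j, G ∣ restriction f g (F j)) ∧
    (∃ u : Fin k → K[X], ∑ j, u j * restriction f g (F j) = G) ∧
    (G.roots.toFinset.card +
      if ∀ j, (restriction f g (F j)).natDegree < a * q + b * r then 1 else 0) = p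
  primes : ∑ v ∈ S, Real.log (Ideal.absNorm v.asIdeal : ℝ) ≤ B
  height_first : Height.logHeight (fun i : Fin n₁ × Fin (a + 1) => (f i.1).coeff i.2) ≤ B
  height_second : Height.logHeight (fun i : Fin n₂ × Fin (b + 1) => (g i.1).coeff i.2) ≤ B
  height_forms : Height.logHeight (fun s : (Σ j, (F j).support) => (F s.1).coeff s.2) ≤ B

/-- the coordinates of the image of `t` under a map of degree `m`; `none` is infinity -/
def coordinates {n : ℕ} (m : ℕ) (f : Fin n → K[X]) : Option K → Fin n → K
  | some t => fun i => (f i).eval t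
  | none => fun i => (f i).coeff m

/-- the points `Q` of the curve with a parameter in the projective line over `K`, off `D`, with
`N^(1)_S(D, Q) ≤ log X`, of whatever height -/
def Points (a b q r : ℕ) (S : Set (HeightOneSpectrum (𝓞 K))) (f : Fin n₁ → K[X])
    (g : Fin n₂ → K[X]) (F : Fin k → MvPolynomial (Fin n₁ ⊕ Fin n₂) K) (X : ℝ) :
    Set (Projectivization K (Fin n₁ → K) × Projectivization K (Fin n₂ → K)) :=
  {Q | ∃ (t : Option K) (hx : coordinates a f t ≠ 0) (hy : coordinates b g t ≠ 0),
    Q = (Projectivization.mk K (coordinates a f t) hx,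
      Projectivization.mk K (coordinates b g t) hy) ∧
    (∃ j, MvPolynomial.eval (Sum.elim (coordinates a f t) (coordinates b g t)) (F j) ≠ 0) ∧
    counting S F q r (coordinates a f t) (coordinates b g t) ≤ Real.log X}

/-- the union of these sets over all admissible data of height at most `η log X` -/
def AllPoints (K : Type) [Field K] [NumberField K] (n₁ n₂ k a b q r p : ℕ) (η X : ℝ) :
    Set (Projectivization K (Fin n₁ → K) × Projectivization K (Fin n₂ → K)) :=
  {Q | ∃ (S : Finset (HeightOneSpectrum (𝓞 K))) (f : Fin n₁ → K[X]) (g : Fin n₂ → K[X])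
    (F : Fin k → MvPolynomial (Fin n₁ ⊕ Fin n₂) K),
    Admissible a b q r p (η * Real.log X) S f g F ∧ Q ∈ Points a b q r (S : Set _) f g F X}

/-- the points `Q` for which there are admissible data of height at most `η log X` such that `Q` is
on the curve, off `D`, with `N^(1)_S(D, Q) ≤ log X`, and violates
`N^(1)_S(D, Q) ≥ κ₁ h(H₁, Q) + κ₂ h(H₂, Q) - A`, where `h(H₁, Q)` and `h(H₂, Q)` are the heights,
relative to `K`, of the two components of `Q` -/
def Exceptions (K : Type) [Field K] [NumberField K] (n₁ n₂ k a b q r p : ℕ) (η κ₁ κ₂ A X : ℝ) :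
    Set (Projectivization K (Fin n₁ → K) × Projectivization K (Fin n₂ → K)) :=
  {Q | ∃ (S : Finset (HeightOneSpectrum (𝓞 K))) (f : Fin n₁ → K[X]) (g : Fin n₂ → K[X])
    (F : Fin k → MvPolynomial (Fin n₁ ⊕ Fin n₂) K),
    Admissible a b q r p (η * Real.log X) S f g F ∧
    ∃ (t : Option K) (hx : coordinates a f t ≠ 0) (hy : coordinates b g t ≠ 0),
      Q = (Projectivization.mk K (coordinates a f t) hx,
        Projectivization.mk K (coordinates b g t) hy) ∧
      (∃ j, MvPolynomial.eval (Sum.elim (coordinates a f t) (coordinates b g t)) (F j) ≠ 0) ∧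
      counting (S : Set _) F q r (coordinates a f t) (coordinates b g t) ≤ Real.log X ∧
      counting (S : Set _) F q r (coordinates a f t) (coordinates b g t) <
        κ₁ * Height.logHeight (coordinates a f t) +
          κ₂ * Height.logHeight (coordinates b g t) - A}

open Pool.Agent.Y557.U

theorem coordinates_fun {n : ℕ} :
    (coordinates : ℕ → (Fin n → K[X]) → Option K → Fin n → K) = co := by
  funext m P t
  cases t <;> rfl

theorem counting_eq (S : Set (HeightOneSpectrum (𝓞 K)))
    (F : Fin k → MvPolynomial (Fin n₁ ⊕ Fin n₂) K) (q r : ℕ) (x : Fin n₁ → K)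
    (y : Fin n₂ → K) : counting S F q r x y = cL S (fun v => lamS F q r v x y) := rfl

theorem adm_iff {a b q r p : ℕ} {B : ℝ} {S : Finset (HeightOneSpectrum (𝓞 K))}
    {f : Fin n₁ → K[X]} {g : Fin n₂ → K[X]} {F : Fin k → MvPolynomial (Fin n₁ ⊕ Fin n₂) K} :
    Admissible a b q r p B S f g F ↔ Adm3 a b q r p B S f g F := by
  constructor
  · intro h
    obtain ⟨A, -, hA⟩ := (hyps K).hCOMP2 n₁ n₂ a b q r
    exact ⟨⟨h.first.degree_le, h.first.degree_eq, h.first.coprime⟩,
      ⟨h.second.degree_le, h.second.degree_eq, h.second.coprime⟩, h.bihomogeneous, h.points,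
      fun j => (hA f g (F j) h.first.degree_le h.second.degree_le (h.bihomogeneous j)).1,
      h.primes, h.height_first, h.height_second, h.height_forms⟩
  · intro h
    exact ⟨⟨h.hf.deg, h.hf.deg', h.hf.cop⟩, ⟨h.hg.deg, h.hg.deg', h.hg.cop⟩, h.hF, h.gcd, h.hS,
      h.hfB, h.hgB, h.hFB⟩

theorem points_eq (a b q r : ℕ) (S : Set (HeightOneSpectrum (𝓞 K))) (f : Fin n₁ → K[X])
    (g : Fin n₂ → K[X]) (F : Fin k → MvPolynomial (Fin n₁ ⊕ Fin n₂) K) (X : ℝ) :
    Points a b q r S f g F X = PP3 a b q r S f g F (Real.log X) := by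
  unfold Points PP3
  simp only [counting_eq]
  rw [coordinates_fun, coordinates_fun]

theorem allPoints_eq (n₁ n₂ k a b q r p : ℕ) (η X : ℝ) :
    AllPoints K n₁ n₂ k a b q r p η X = AP3 K n₁ n₂ k a b q r p η (Real.log X) := by
  unfold AllPoints AP3
  simp only [points_eq, adm_iff]

theorem exceptions_eq (n₁ n₂ k a b q r p : ℕ) (η κ₁ κ₂ A X : ℝ) :
    Exceptions K n₁ n₂ k a b q r p η κ₁ κ₂ A X =
      EX3 K n₁ n₂ k a b q r p η κ₁ κ₂ A (Real.log X) := by
  unfold Exceptions EX3
  simp only [counting_eq, adm_iff]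
  rw [coordinates_fun, coordinates_fun]

/-- **All rational curves of small height of all pairs at once.** Let `K` be a number field,
`a + b ≥ 1` and `p ≥ 3`.
(1) For every `δ > 0` there is `η > 0` such that on all admissible curves of height at most
`η log X` together there are at most `C X ^ (2 / p + δ)` points `Q` off `D` with
`N^(1)_S(D, Q) ≤ log X`, and on each single one of them at least `X ^ (2 / p - δ)` (`X` large).
(2) If `κ₁ a + κ₂ b < p`, there are `η, ν > 0` such that for every real `A` at most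
`C X ^ (2 / p - ν)` points of all these curves violate
`N^(1)_S(D, Q) ≥ κ₁ h(H₁, Q) + κ₂ h(H₂, Q) - A`; for large `X` this is at most `X ^ (-ν)` times the
number of the points of each single curve.
(3) For admissible data of height at most `B`, all points of the curve satisfy
`|b h(H₁, Q) - a h(H₂, Q)| ≤ C (B + 1)` and, off `D`,
`(a + b) N^(1)_S(D, Q) ≤ p (h(H₁, Q) + h(H₂, Q)) + C (B + 1)`.
Points of the curves always means points with a parameter in the projective line over `K`. -/
theorem result (K : Type) [Field K] [NumberField K] (n₁ n₂ k a b q r p : ℕ) (hab : 1 ≤ a + b)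
    (hp : 3 ≤ p) :
    (∀ δ : ℝ, 0 < δ → ∃ η : ℝ, 0 < η ∧
      (∃ C : ℝ, ∀ X : ℝ, 1 ≤ X → (AllPoints K n₁ n₂ k a b q r p η X).Finite ∧
        ((AllPoints K n₁ n₂ k a b q r p η X).ncard : ℝ) ≤ C * X ^ (2 / (p : ℝ) + δ)) ∧
      ∃ X₀ : ℝ, ∀ X : ℝ, X₀ ≤ X → ∀ (S : Finset (HeightOneSpectrum (𝓞 K))) (f : Fin n₁ → K[X])
        (g : Fin n₂ → K[X]) (F : Fin k → MvPolynomial (Fin n₁ ⊕ Fin n₂) K),
        Admissible a b q r p (η * Real.log X) S f g F →
        X ^ (2 / (p : ℝ) - δ) ≤ ((Points a b q r (S : Set _) f g F X).ncard : ℝ)) ∧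
    (∀ κ₁ κ₂ : ℝ, κ₁ * a + κ₂ * b < p → ∃ η ν : ℝ, 0 < η ∧ 0 < ν ∧ ∀ A : ℝ,
      (∃ C : ℝ, ∀ X : ℝ, 1 ≤ X → (Exceptions K n₁ n₂ k a b q r p η κ₁ κ₂ A X).Finite ∧
        ((Exceptions K n₁ n₂ k a b q r p η κ₁ κ₂ A X).ncard : ℝ) ≤
          C * X ^ (2 / (p : ℝ) - ν)) ∧
      ∃ X₀ : ℝ, ∀ X : ℝ, X₀ ≤ X → ∀ (S : Finset (HeightOneSpectrum (𝓞 K))) (f : Fin n₁ → K[X])
        (g : Fin n₂ → K[X]) (F : Fin k → MvPolynomial (Fin n₁ ⊕ Fin n₂) K),
        Admissible a b q r p (η * Real.log X) S f g F →
        ((Exceptions K n₁ n₂ k a b q r p η κ₁ κ₂ A X).ncard : ℝ) ≤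
          X ^ (-ν) * ((Points a b q r (S : Set _) f g F X).ncard : ℝ)) ∧
    ∃ C : ℝ, ∀ B : ℝ, 0 ≤ B → ∀ (S : Finset (HeightOneSpectrum (𝓞 K))) (f : Fin n₁ → K[X])
      (g : Fin n₂ → K[X]) (F : Fin k → MvPolynomial (Fin n₁ ⊕ Fin n₂) K),
      Admissible a b q r p B S f g F → ∀ t : Option K, coordinates a f t ≠ 0 →
      coordinates b g t ≠ 0 →
      |b * Height.logHeight (coordinates a f t) - a * Height.logHeight (coordinates b g t)| ≤
        C * (B + 1) ∧
      ((∃ j, MvPolynomial.eval (Sum.elim (coordinates a f t) (coordinates b g t)) (F j) ≠ 0) →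
        (a + b) * counting (S : Set _) F q r (coordinates a f t) (coordinates b g t) ≤
          p * (Height.logHeight (coordinates a f t) + Height.logHeight (coordinates b g t)) +
            C * (B + 1)) := by
  obtain ⟨h1, h2⟩ := gen_main0 (hyps K) n₁ n₂ k a b q r p hab hp
  refine ⟨fun δ hδ => ?_, fun κ₁ κ₂ hκ => ?_, ?_⟩
  · simp only [allPoints_eq, points_eq, adm_iff]
    exact h1 δ hδ
  · simp only [exceptions_eq, points_eq, adm_iff]
    exact h2 κ₁ κ₂ hκ
  · obtain ⟨C, -, hC⟩ := gen_rev (hyps K) n₁ n₂ k a b q r p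
    refine ⟨C, ?_⟩
    simp only [counting_eq, adm_iff]
    rw [coordinates_fun, coordinates_fun]
    exact hC

end Pool.Agent.Results.MP_9ec3f0_nt.AllRationalCurvesAllPairs
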