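import Mathlib
import Pool.Agent.Y594.NT.Conv

/-! Vojta's inequality with truncated counting function on projective space of any dimension, for
hyperplanes in general position: it holds for almost all rational points of polynomial height. -/

set_option autoImplicit false

namespace Pool.Agent.Results.MP_9ec3f0_nt.AlmostAllPointsOfProjectiveSpace

open Finset

/-- the value of the linear form with coefficients `a` at `x` -/
def form {m : ℕ} (a x : Fin (m + 1) → ℤ) : ℤ := ∑ j, a j * x j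

/-- the hyperplanes `L i = 0` of `ℙ^m` are in general position: any `m + 1` of the linear forms
are linearly independent -/
def GeneralPosition {m q : ℕ} (L : Fin q → Fin (m + 1) → ℤ) : Prop :=
  ∀ s : Fin (m + 1) → Fin q, Function.Injective s → (Matrix.of fun a b => L (s a) b).det ≠ 0

/-- the sum of `log p` over the primes `p` outside `S` that divide `a`: for a point `x` with
coprime integer coordinates, `N1 S (form (L i) x)` is the truncated counting function of the
hyperplane `L i = 0`, and `N1 S (∏ i, form (L i) x)` is the truncated counting function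
`N_S^{(1)}(D, x)` of the sum `D` of all the hyperplanes (every prime is counted once) -/
noncomputable def N1 (S : Finset ℕ) (a : ℤ) : ℝ := ∑ p ∈ a.natAbs.primeFactors \ S, Real.log p

/-- the height `h(x) = log max |x_j|` of a point with coprime integer coordinates -/
noncomputable def h {m : ℕ} (x : Fin (m + 1) → ℤ) : ℝ :=
  Real.log ((univ.sup fun j => (x j).natAbs : ℕ) : ℝ)

/-- the rational points off the hyperplanes (every point is given by its two vectors of coprime
integer coordinates), of height at most `A log X`, whose truncated counting functions with respect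
to the hyperplanes add up to at most `log X` -/
def Points {m q : ℕ} (L : Fin q → Fin (m + 1) → ℤ) (S : Finset ℕ) (A X : ℝ) :
    Set (Fin (m + 1) → ℤ) :=
  {x | univ.gcd x = 1 ∧ (∀ i, form (L i) x ≠ 0) ∧ h x ≤ A * Real.log X ∧
    ∑ i, N1 S (form (L i) x) ≤ Real.log X}

theorem result : ∀ (m q : ℕ), 1 ≤ m → m + 2 ≤ q → ∀ L : Fin q → Fin (m + 1) → ℤ,
    GeneralPosition L → ∀ (S : Finset ℕ) (A : ℝ), (1 : ℝ) / q ≤ A →
    (∀ X : ℝ, (Points L S A X).Finite) ∧
    (∃ c : ℝ, 0 < c ∧ ∃ X₀ : ℝ, ∀ X : ℝ, X₀ ≤ X →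
      c * X ^ (((m : ℝ) + 1) / q) ≤ ((Points L S A X).ncard : ℝ)) ∧
    (∀ δ : ℝ, 0 < δ → ∃ C : ℝ, 0 < C ∧ ∀ X : ℝ, 1 ≤ X →
      ((Points L S A X).ncard : ℝ) ≤ C * X ^ (((m : ℝ) + 1) / q + δ)) ∧
    (∀ ε : ℝ, 0 < ε → ∃ ν : ℝ, 0 < ν ∧ ∃ C : ℝ, 0 < C ∧ ∀ X : ℝ, 1 ≤ X →
      ({x ∈ Points L S A X | N1 S (∏ i, form (L i) x) < ((q : ℝ) - ε) * h x}.ncard : ℝ) ≤
        C * X ^ (((m : ℝ) + 1) / q - ν)) ∧
    (∃ C : ℝ, ∀ x : Fin (m + 1) → ℤ, univ.gcd x = 1 → (∀ i, form (L i) x ≠ 0) →
      N1 S (∏ i, form (L i) x) ≤ ∑ i, N1 S (form (L i) x) ∧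
        ∑ i, N1 S (form (L i) x) ≤ q * h x + C) := by
  intro m q hm hq L hL S A hA
  refine ⟨fun X => Pool.Agent.Y594.NT.Pts_finite (L := L) S A X, ?_, ?_, ?_, ?_⟩
  · exact Pool.Agent.Y594.NT.pts_lower hL hm (by omega) S A hA
  · intro δ hδ
    exact Pool.Agent.Y594.NT.pts_upper hL (by omega) S A δ hδ
  · intro ε hε
    exact Pool.Agent.Y594.NT.pts_bad hL hm hq S A ε hε
  · obtain ⟨C, hC⟩ := Pool.Agent.Y594.NT.N1_le hL (by omega) S
    exact ⟨C, fun x hx hne => ⟨Pool.Agent.Y594.NT.N1_prod_le S _ univ, hC x hx hne⟩⟩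

end Pool.Agent.Results.MP_9ec3f0_nt.AlmostAllPointsOfProjectiveSpace
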