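import Pool.Agent.Y728.AK.QLow

/-!
# Vojta's conjecture with truncated counting function for almost all points of the line

`K` is a number field, `S` a finite set of primes, `D = a 0 + ... + a (q - 1)` a sum of `q ≥ 3`
different `K`-rational points of the projective line, so that `K_X + D` has degree `q - 2`. The
`K`-rational points `P` off `D`, of all heights, are ordered by `N^(1)_S(D, P)`. All but a
power-saving proportion of them satisfy `N^(1)_S(D, P) ≥ (q - ε) h(P)`, whereas the conjecture asks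
for `N^(1)_S(D, P) ≥ (q - 2 - ε) h(P) - C`.
-/

set_option autoImplicit false

namespace Pool.Agent.Results.MP_9ec3f0_nt.AlmostAllPointsOfTheLine

open NumberField IsDedekindDomain

variable {K : Type} [Field K] [NumberField K]

/-- the linear form vanishing at the point `(a 0 : a 1)` -/
def form (a x : Fin 2 → K) : K := a 0 * x 1 - a 1 * x 0

/-- the local height of `(x 0 : x 1)` relative to the point `(a 0 : a 1)`, at the prime `v` -/
noncomputable def localHeight (v : HeightOneSpectrum (𝓞 K)) (a x : Fin 2 → K) : ℝ :=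
  Real.log (max (FinitePlace.mk v (a 0)) (FinitePlace.mk v (a 1)) *
    max (FinitePlace.mk v (x 0)) (FinitePlace.mk v (x 1)) / FinitePlace.mk v (form a x))

/-- the truncated counting function `N^(1)_S(D, P)` of `D = a 0 + ... + a (q - 1)`: the sum of
`log N(v)` over the primes `v` outside `S` where the local height of `D` is positive -/
noncomputable def counting (S : Set (HeightOneSpectrum (𝓞 K))) {q : ℕ} (a : Fin q → Fin 2 → K)
    (x : Fin 2 → K) : ℝ :=
  ∑ᶠ v ∈ {v : HeightOneSpectrum (𝓞 K) | v ∉ S ∧ 0 < ∑ i, localHeight v (a i) x},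
    Real.log (Ideal.absNorm v.asIdeal : ℝ)

/-- the `K`-rational points `P` off `D` with `exp N^(1)_S(D, P) ≤ X`, of whatever height -/
def Points (S : Set (HeightOneSpectrum (𝓞 K))) {q : ℕ} (a : Fin q → Fin 2 → K) (X : ℝ) :
    Set (Projectivization K (Fin 2 → K)) :=
  {P | ∃ (x : Fin 2 → K) (hx : x ≠ 0), P = Projectivization.mk K x hx ∧
    (∀ i, form (a i) x ≠ 0) ∧ Real.exp (counting S a x) ≤ X}

/-- those among them with `N^(1)_S(D, P) < (q - ε) h(P)`, where `h` is the logarithmic height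
relative to `K` -/
def Exceptions (S : Set (HeightOneSpectrum (𝓞 K))) {q : ℕ} (a : Fin q → Fin 2 → K) (ε X : ℝ) :
    Set (Projectivization K (Fin 2 → K)) :=
  {P | ∃ (x : Fin 2 → K) (hx : x ≠ 0), P = Projectivization.mk K x hx ∧
    (∀ i, form (a i) x ≠ 0) ∧ Real.exp (counting S a x) ≤ X ∧
    counting S a x < ((q : ℝ) - ε) * Height.logHeight x}

open Pool.Agent.Y728 Pool.Agent.Y728.AK in
theorem exceptions_sub (S : Set (HeightOneSpectrum (𝓞 K))) {q : ℕ} (a : Fin q → Fin 2 → K)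
    {ε ε' : ℝ} (h1 : ε' ≤ ε) (h2 : ε' < q) (X : ℝ) :
    Exceptions S a ε X ⊆ ExcQ S a (1 / ((q : ℝ) - ε')) X := by
  rintro P ⟨x, hx, e, hf, hX, hlt⟩
  refine ⟨x, hx, e, hf, hX, ?_⟩
  have hpos : 0 < (q : ℝ) - ε' := by linarith
  have hh : 0 ≤ Height.logHeight x := Height.logHeight_nonneg x
  have h3 : ((q : ℝ) - ε) * Height.logHeight x ≤ ((q : ℝ) - ε') * Height.logHeight x :=
    mul_le_mul_of_nonneg_right (by linarith) hh
  have h4 : counting S a x ≤ ((q : ℝ) - ε') * Height.logHeight x := hlt.le.trans h3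
  show 1 / ((q : ℝ) - ε') * counting S a x ≤ Height.logHeight x
  rw [one_div, inv_mul_le_iff₀ hpos]
  exact h4

/-- **Almost all points of the line, of all heights.** Let `K` be a number field, `S` a finite set
of primes, and `D` the sum of `q ≥ 3` different `K`-rational points of the projective line.
(1) The number of all points `P` over `K` off `D` with `exp N^(1)_S(D, P) ≤ X`, of whatever height,
is `X ^ (2 / q + o(1))`.
(2) For every `ε > 0` at most `C X ^ (2 / q - ν)` of them, a proportion `≤ X ^ (-ν)` for large `X`,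
violate the inequality `N^(1)_S(D, P) ≥ (q - ε) h(P)`. -/
theorem result (K : Type) [Field K] [NumberField K] (S : Set (HeightOneSpectrum (𝓞 K)))
    (hS : S.Finite) (q : ℕ) (hq : 3 ≤ q) (a : Fin q → Fin 2 → K)
    (ha : ∀ i j, i ≠ j → form (a i) (a j) ≠ 0) :
    (∀ δ : ℝ, 0 < δ →
      (∃ C : ℝ, ∀ X : ℝ, 1 ≤ X → (Points S a X).Finite ∧
        ((Points S a X).ncard : ℝ) ≤ C * X ^ (2 / (q : ℝ) + δ)) ∧
      ∃ X₀ : ℝ, ∀ X : ℝ, X₀ ≤ X → X ^ (2 / (q : ℝ) - δ) ≤ ((Points S a X).ncard : ℝ)) ∧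
    (∀ ε : ℝ, 0 < ε →
      (∃ ν C : ℝ, 0 < ν ∧ 0 < C ∧ ∀ X : ℝ, 1 ≤ X →
        ((Exceptions S a ε X).ncard : ℝ) ≤ C * X ^ (2 / (q : ℝ) - ν)) ∧
      ∃ ν X₀ : ℝ, 0 < ν ∧ ∀ X : ℝ, X₀ ≤ X →
        ((Exceptions S a ε X).ncard : ℝ) ≤ X ^ (-ν) * ((Points S a X).ncard : ℝ)) := by
  have hq0 : (3 : ℝ) ≤ q := by exact_mod_cast hq
  refine ⟨fun δ hδ => ⟨Pool.Agent.Y728.line_final K S hS q hq a ha δ hδ, ?_⟩, fun ε hε => ?_⟩
  · obtain ⟨X0, -, h⟩ := Pool.Agent.Y728.AK.line_low K S hS q hq a ha δ hδ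
    exact ⟨X0, h⟩
  · obtain ⟨ε', hε'⟩ : ∃ ε' : ℝ, ε' = min ε 1 := ⟨_, rfl⟩
    have h0 : 0 < ε' := by rw [hε']; exact lt_min hε one_pos
    have h1 : ε' ≤ ε := by rw [hε']; exact min_le_left _ _
    have h2 : ε' ≤ 1 := by rw [hε']; exact min_le_right _ _
    have hpos : 0 < (q : ℝ) - ε' := by linarith
    have hM : 1 / (q : ℝ) < 1 / ((q : ℝ) - ε') :=
      one_div_lt_one_div_of_lt hpos (by linarith)
    obtain ⟨C, hC⟩ := Pool.Agent.Y728.line_final K S hS q hq a ha 1 one_pos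
    have hle : ∀ X : ℝ, 1 ≤ X → ((Exceptions S a ε X).ncard : ℝ) ≤
        ((Pool.Agent.Y728.AK.ExcQ S a (1 / ((q : ℝ) - ε')) X).ncard : ℝ) := by
      intro X hX
      exact_mod_cast Set.ncard_le_ncard (exceptions_sub S a h1 (by linarith) X)
        ((hC X hX).1.subset (Pool.Agent.Y728.AK.ExcQ_sub S a _ X))
    constructor
    · obtain ⟨ν, C, hν, -, hC, h⟩ := Pool.Agent.Y728.AK.line_exc K S hS q hq a ha hM
      exact ⟨ν, C, hν, hC, fun X hX => (hle X hX).trans (h X hX)⟩
    · obtain ⟨ν, X0, hν, h⟩ := Pool.Agent.Y728.AK.line_ratio K S hS q hq a ha hM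
      refine ⟨ν, max X0 1, hν, fun X hX => (hle X ((le_max_right _ _).trans hX)).trans
        (h X ((le_max_left _ _).trans hX))⟩

end Pool.Agent.Results.MP_9ec3f0_nt.AlmostAllPointsOfTheLine
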