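import Mathlib
import Pool.Agent.Y731.GV.Fin

set_option autoImplicit false

/-!
# MP_9ec3f0_nt: the truncated inequality of Vojta on all smooth projective varieties over `ℚ`, for
# all strict normal crossings divisors and all points with sparse coordinates and factorisation

`X` is a smooth projective variety of dimension `N` in `ℙ^(N + s)` with the equations `G k = 0`
(any number of them), `D = D_1 + ⋯ + D_q` a divisor of `X` with strict normal crossings, `D_i` the
subvariety of `X` with the equations `F i j = 0`, `j < w`, `F i j` of degree `d i j` (not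
necessarily a hypersurface section).

The points considered: `Γ` is a finitely generated group of nonzero rational numbers, `k` a number.
The coordinates of `x` and the factors `y l`, `c i j` of a factorisation
`F i j (x) = c i j * ∏ l, y l ^ ex i l` of the equations of `D` at `x`, with a common part for all
equations of the same component and with factors which may be shared by several components, are sums
of `k` products of elements of `Γ` and integers of absolute value at most `M`.

The inequality is that of the conjecture: `h_K(x) + h_D(x)` is at most the truncated counting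
function `N^(1)_S(D, x)`, in which each prime counts once (also if it divides several components),
plus `ε h(x)`, plus a term which vanishes if the product of the `y l` and of the contents of the
`c i j` is squarefree outside `S`, plus `C (1 + log M)`.
-/

namespace Pool.Agent.Results.MP_9ec3f0_nt.SparseAllVarieties

open MvPolynomial

/-- `x` is a primitive integer vector; every rational point of a projective space is represented by
exactly two of them, `x` and `-x` -/
def IsPrimitive {M : ℕ} (x : Fin M → ℤ) : Prop :=
  Finset.univ.gcd x = 1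

/-- `max |x_i|`, the multiplicative height of the point given by a primitive `x` -/
def height {M : ℕ} (x : Fin M → ℤ) : ℕ :=
  Finset.univ.sup (fun i => (x i).natAbs)

/-- `x` is a point of the variety `X` -/
def OnX {M g : ℕ} (G : Fin g → MvPolynomial (Fin M) ℤ) (x : Fin M → ℤ) : Prop :=
  ∀ k, eval x (G k) = 0

/-- The height `h_D(x)` of the point given by a primitive `x` with respect to the divisor
`D = D_1 + ⋯ + D_q`, `D_i` with the equations `F i j = 0`, `F i j` of degree `d i j`. It is the sum
over `i` of all local heights: at the prime `p` minus the logarithm of `max_j |F i j x|_p` (together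
the logarithm of the greatest common divisor of the `F i j x`), at the infinite place minus the
logarithm of `max_j |F i j x| / max |x_c| ^ d i j`. -/
noncomputable def divisorHeight {M q w : ℕ} (F : Fin q → Fin w → MvPolynomial (Fin M) ℤ)
    (d : Fin q → Fin w → ℕ) (x : Fin M → ℤ) : ℝ :=
  ∑ i, (Real.log ((Finset.univ.gcd fun j => eval x (F i j) : ℤ) : ℝ) -
    Real.log (⨆ j, |((eval x (F i j) : ℤ) : ℝ)| / (height x : ℝ) ^ d i j))

/-- The truncated counting function `N^(1)_S(D, x)`: the sum of `log p` over the primes `p` outside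
`S` modulo which `x` lies on `D`, that is, which divide all `F i j x`, `j < w`, for some `i`. -/
noncomputable def truncatedCounting {M q w : ℕ} (F : Fin q → Fin w → MvPolynomial (Fin M) ℤ)
    (S : Finset ℕ) (x : Fin M → ℤ) : ℝ :=
  ∑ p ∈ (∏ i, Finset.univ.gcd fun j => eval x (F i j)).natAbs.primeFactors \ S, Real.log p

/-- The sum of `(v_p(W) - 1) log p` over the primes `p` outside `S` which divide the integer `W`; it
is zero if `W` is squarefree outside `S`. -/
noncomputable def excess (S : Finset ℕ) (W : ℤ) : ℝ :=
  ∑ p ∈ W.natAbs.primeFactors \ S, ((W.natAbs.factorization p : ℝ) - 1) * Real.log p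

/-- The columns of `A` are a basis of the tangent space of the affine cone over `X` at `x` (the
vectors orthogonal to all gradients of equations), `X` being smooth of dimension `N` at `x`. -/
def IsTangentBasis {M N g : ℕ} (G : Fin g → MvPolynomial (Fin M) ℤ) (x : Fin M → ℤ)
    (A : Matrix (Fin M) (Fin (N + 1)) ℤ) : Prop :=
  LinearIndependent ℚ (fun c : Fin (N + 1) => fun j : Fin M => (A j c : ℚ)) ∧
    ∀ k c, ∑ j, eval x (pderiv j (G k)) * A j c = 0

/-- The maximal minor of `A` with the rows `J`. -/
def minor {M N : ℕ} (A : Matrix (Fin M) (Fin (N + 1)) ℤ) (J : Fin (N + 1) → Fin M) : ℤ :=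
  (A.submatrix J id).det

/-- The height `h_K(x)` for the canonical class `K` of `X`. The Gauss map `γ` sends a point of `X` to
its embedded tangent space, `γ^* O(1) = K + (N + 1) H` for the hyperplane class `H`, and `h_K(x)` is
the height of `γ(x)` (the logarithm of the maximum of the absolute values of the Plücker coordinates,
divided by their greatest common divisor) minus `(N + 1) h(x)`. -/
noncomputable def canonicalHeight {M N : ℕ} (x : Fin M → ℤ) (A : Matrix (Fin M) (Fin (N + 1)) ℤ) :
    ℝ :=
  Real.log (((Finset.univ.sup (fun J : Fin (N + 1) → Fin M => (minor A J).natAbs) : ℕ) : ℝ) /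
    ((Finset.univ.gcd (fun J : Fin (N + 1) → Fin M => minor A J) : ℤ) : ℝ)) -
    (N + 1) * Real.log (height x)

/-- The dimension of `X` is at least `N`: some `N + 1` coordinates are algebraically independent on
the cone over `X`. -/
def DimGE {M g : ℕ} (N : ℕ) (G : Fin g → MvPolynomial (Fin M) ℤ) : Prop :=
  ∃ J : Fin (N + 1) → Fin M, ∀ P : MvPolynomial (Fin (N + 1)) ℚ,
    (∀ z : Fin M → ℂ, (∀ k, aeval z (G k) = 0) → aeval (fun i => z (J i)) P = 0) → P = 0

/-- `X` is smooth of codimension `s` and `D` has strict normal crossings on `X`: at each point `z` of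
`X` with complex coordinates, for suitable `s` equations of `X` and one equation of each component of
`D` through `z` all gradients at `z` are linearly independent. -/
def SmoothPair {M g q w : ℕ} (s : ℕ) (G : Fin g → MvPolynomial (Fin M) ℤ)
    (F : Fin q → Fin w → MvPolynomial (Fin M) ℤ) : Prop :=
  ∀ z : Fin M → ℂ, z ≠ 0 → (∀ k, aeval z (G k) = 0) →
    ∃ (K : Fin s → Fin g) (J : Fin q → Fin w),
      LinearIndependent ℂ (Sum.elim
        (fun a : Fin s => fun y : Fin M => aeval z (pderiv y (G (K a))))
        (fun i : {i : Fin q // ∀ j, aeval z (F i j) = 0} => fun y : Fin M =>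
          aeval z (pderiv y (F i.1 (J i.1)))))

/-- The integer `z` is a sum of `k` products of elements of `Γ` and integers of absolute value at
most `M`. -/
def Sparse (Γ : Subgroup ℚˣ) (k : ℕ) (M : ℝ) (z : ℤ) : Prop :=
  ∃ (u : Fin k → Γ) (a : Fin k → ℤ), (∀ j, |(a j : ℝ)| ≤ M) ∧
    (z : ℚ) = ∑ j, ((u j : ℚˣ) : ℚ) * a j

theorem li_congr {V ι κ : Type} [AddCommGroup V] [Module ℂ V] (P Q : κ → Prop) (h : P = Q)
    (u : ι → V) (v : κ → V)
    (hli : LinearIndependent ℂ (Sum.elim u fun i : {i // Q i} => v i.1)) :
    LinearIndependent ℂ (Sum.elim u fun i : {i // P i} => v i.1) := by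
  subst h
  exact hli

/-- **Main theorem.** Let `X` be a smooth projective variety of dimension `N` over `ℚ` in
`ℙ^(N + s)` and `D = D_1 + ⋯ + D_q` a divisor of `X` with strict normal crossings. Let `Γ` be a
finitely generated group of nonzero rational numbers, `S` a finite set of primes, `k` a number, `ex`
the exponents of a factorisation and `ε > 0`. There are a form `Φ` that does not vanish on `X` and a
constant `C` such that for all `M ≥ 1` all rational points `x` of `X` off `D` and off `Φ = 0` whose
coordinates are sums of `k` products of elements of `Γ` and integers of absolute value at most `M`,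
and all factorisations `F i j (x) = c i j * ∏ l, y l ^ ex i l` with `c i j`, `y l` of the same kind
satisfy the truncated inequality of Vojta
`h_K(x) + h_D(x) ≤ N^(1)_S(D, x) + ε h(x) + excess + C (1 + log M)`, with an excess that vanishes if
the product of the `y l` and of the greatest common divisors of the `c i j`, `j < w`, is squarefree
outside `S`. -/
theorem result (N s g q w p k : ℕ) (G : Fin g → MvPolynomial (Fin (N + 1 + s)) ℤ)
    (e : Fin g → ℕ) (hG : ∀ k, (G k).IsHomogeneous (e k))
    (F : Fin q → Fin w → MvPolynomial (Fin (N + 1 + s)) ℤ)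
    (d : Fin q → Fin w → ℕ) (hF : ∀ i j, (F i j).IsHomogeneous (d i j))
    (hdim : DimGE N G) (hsm : SmoothPair s G F)
    (ex : Fin q → Fin p → ℕ) (hex : ∀ l, ∃ i, 1 ≤ ex i l)
    (Γ : Subgroup ℚˣ) (hΓ : Γ.FG) (S : Finset ℕ) (ε : ℝ) (hε : 0 < ε) :
    ∃ (Φ : MvPolynomial (Fin (N + 1 + s)) ℚ) (m : ℕ) (C : ℝ), Φ.IsHomogeneous m ∧
      (∃ z : Fin (N + 1 + s) → ℂ, (∀ k, aeval z (G k) = 0) ∧ aeval z Φ ≠ 0) ∧
      ∀ M : ℝ, 1 ≤ M → ∀ x : Fin (N + 1 + s) → ℤ, IsPrimitive x → OnX G x →
        (∀ a, Sparse Γ k M (x a)) → eval (fun a => (x a : ℚ)) Φ ≠ 0 →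
        (∀ i, ∃ j, eval x (F i j) ≠ 0) →
        ∀ (y : Fin p → ℤ) (c : Fin q → Fin w → ℤ), (∀ l, Sparse Γ k M (y l)) →
          (∀ i j, Sparse Γ k M (c i j)) →
          (∀ i j, eval x (F i j) = c i j * ∏ l, y l ^ (ex i l)) →
          ∀ A : Matrix (Fin (N + 1 + s)) (Fin (N + 1)) ℤ, IsTangentBasis G x A →
            canonicalHeight x A + divisorHeight F d x ≤
              truncatedCounting F S x +
                excess S ((∏ l, y l) * ∏ i, Finset.univ.gcd (c i)) +
                ε * Real.log (height x) + C * (1 + Real.log M) := by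
  classical
  obtain ⟨J, hJ⟩ := hdim
  obtain ⟨Φ, C, ⟨m, hm⟩, hΦ0, hmain⟩ := Pool.Agent.Y731.GV.gvFin N s g q w p k G e hG F d hF
    (by
      intro z hz hzG
      obtain ⟨K, J', h⟩ := hsm z hz (fun j => by
        have := hzG j
        rwa [Pool.Agent.Y731.GV.aeval_toQ_complex] at this)
      refine ⟨K, J', ?_⟩
      have hpq : (fun i : Fin q => ∀ j, aeval z (Pool.Agent.Y731.GV.toQ (F i j)) = 0) =
          fun i : Fin q => ∀ j, aeval z (F i j) = 0 := by
        funext i
        simp only [Pool.Agent.Y731.GV.aeval_toQ_complex]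
      simp only [Pool.Agent.Y731.GV.toQ_pderiv]
      refine li_congr _ _ hpq _ (fun (i : Fin q) (c : Fin (N + 1 + s)) =>
        aeval z (Pool.Agent.Y731.GV.toQ (pderiv c (F i (J' i))))) ?_
      simp only [Pool.Agent.Y731.GV.aeval_toQ_complex]
      exact h)
    J ex hex Γ hΓ S ε hε
  refine ⟨rename J Φ, m, C, hm.rename_isHomogeneous, ?_, ?_⟩
  · by_contra hcon
    push Not at hcon
    apply hΦ0
    apply hJ
    intro z hz
    have := hcon z hz
    rw [aeval_rename] at this
    exact this
  · intro M hM x hx hX hxs hΦ hFx y c hys hcs hfac A hA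
    rw [eval_rename] at hΦ
    have h1 := hmain M hM x y c hX hxs hys hcs hfac hFx hx hΦ A (by
      intro κ hκ ρ
      have h5 := Fintype.linearIndependent_iff.1 hA.1 κ (by
        funext j
        rw [Finset.sum_apply, Pi.zero_apply, ← hκ j]
        exact Finset.sum_congr rfl fun c _ => by rw [Pi.smul_apply, smul_eq_mul])
      exact h5 ρ) (fun ρ j => by
        rw [← hA.2 j ρ]
        exact Finset.sum_congr rfl fun c _ => mul_comm _ _)
    -- the primes
    have hy0 : ∀ l, y l ≠ 0 := by
      intro l h0
      obtain ⟨i, hi⟩ := hex l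
      obtain ⟨j, hj⟩ := hFx i
      apply hj
      rw [hfac, Finset.prod_eq_zero (i := l) (Finset.mem_univ _)
        (by rw [h0, zero_pow (by omega)]), mul_zero]
    have hg : ∀ i, Finset.univ.gcd (fun j => eval x (F i j)) =
        Finset.univ.gcd (c i) * normalize (∏ l, y l ^ (ex i l)) := by
      intro i
      simp only [hfac]
      exact Finset.gcd_mul_right
    have hpf : (∏ i, Finset.univ.gcd fun j => eval x (F i j)).natAbs.primeFactors =
        ((∏ l, y l) * ∏ i, Finset.univ.gcd (c i)).natAbs.primeFactors := by
      have hc0 : ∀ i, Finset.univ.gcd (c i) ≠ 0 := by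
        intro i h0
        obtain ⟨j, hj⟩ := hFx i
        apply hj
        rw [hfac, (Finset.gcd_eq_zero_iff.1 h0) j (Finset.mem_univ _), zero_mul]
      have hY : ∀ i, ∏ l, y l ^ (ex i l) ≠ 0 := fun i =>
        Finset.prod_ne_zero_iff.2 fun l _ => pow_ne_zero _ (hy0 l)
      have h2 : ∏ i, Finset.univ.gcd (fun j => eval x (F i j)) ≠ 0 := by
        refine Finset.prod_ne_zero_iff.2 fun i _ => ?_
        rw [hg]
        refine mul_ne_zero (hc0 i) ?_
        rw [Ne, normalize_eq_zero]
        exact hY i
      have h3 : (∏ l, y l) * ∏ i, Finset.univ.gcd (c i) ≠ 0 := mul_ne_zero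
        (Finset.prod_ne_zero_iff.2 fun l _ => hy0 l) (Finset.prod_ne_zero_iff.2 fun i _ => hc0 i)
      ext r
      rw [Nat.mem_primeFactors, Nat.mem_primeFactors]
      have h4 : r.Prime → (r ∣ (∏ i, Finset.univ.gcd fun j => eval x (F i j)).natAbs ↔
          r ∣ ((∏ l, y l) * ∏ i, Finset.univ.gcd (c i)).natAbs) := by
        intro hr
        have hr' : Prime (r : ℤ) := Nat.prime_iff_prime_int.1 hr
        rw [← Int.natCast_dvd, ← Int.natCast_dvd, hr'.dvd_mul, hr'.dvd_finsetProd_iff,
          hr'.dvd_finsetProd_iff, hr'.dvd_finsetProd_iff]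
        constructor
        · rintro ⟨i, _, hi⟩
          rw [hg, hr'.dvd_mul] at hi
          rcases hi with hi | hi
          · exact Or.inr ⟨i, Finset.mem_univ _, hi⟩
          · rw [dvd_normalize_iff, hr'.dvd_finsetProd_iff] at hi
            obtain ⟨l, _, hl⟩ := hi
            exact Or.inl ⟨l, Finset.mem_univ _, hr'.dvd_of_dvd_pow hl⟩
        · rintro (⟨l, _, hl⟩ | ⟨i, _, hi⟩)
          · obtain ⟨i, hi⟩ := hex l
            refine ⟨i, Finset.mem_univ _, ?_⟩
            rw [hg]
            refine Dvd.dvd.mul_left ?_ _
            rw [dvd_normalize_iff]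
            refine hl.trans ((dvd_pow_self _ (by omega : ex i l ≠ 0)).trans ?_)
            exact Finset.dvd_prod_of_mem (fun l => y l ^ (ex i l)) (Finset.mem_univ l)
          · refine ⟨i, Finset.mem_univ _, ?_⟩
            rw [hg]
            exact Dvd.dvd.mul_right hi _
      have h5 : (∏ i, Finset.univ.gcd fun j => eval x (F i j)).natAbs ≠ 0 :=
        Int.natAbs_ne_zero.2 h2
      have h6 : ((∏ l, y l) * ∏ i, Finset.univ.gcd (c i)).natAbs ≠ 0 := Int.natAbs_ne_zero.2 h3
      constructor
      · rintro ⟨ha, hb, -⟩
        exact ⟨ha, (h4 ha).1 hb, h6⟩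
      · rintro ⟨ha, hb, -⟩
        exact ⟨ha, (h4 ha).2 hb, h5⟩
    have h7 : truncatedCounting F S x + excess S ((∏ l, y l) * ∏ i, Finset.univ.gcd (c i)) =
        ∑ r ∈ ((∏ l, y l) * ∏ i, Finset.univ.gcd (c i)).natAbs.primeFactors \ S,
          ((((∏ l, y l) * ∏ i, Finset.univ.gcd (c i)).natAbs.factorization r : ℕ) : ℝ) *
            Real.log r := by
      unfold truncatedCounting excess
      rw [hpf, ← Finset.sum_add_distrib]
      exact Finset.sum_congr rfl fun r _ => by ring
    rw [h7]
    have h8 : canonicalHeight x A + divisorHeight F d x =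
        Real.log (Pool.Agent.Y731.GV.ratio A) - ((N : ℝ) + 1) *
          Real.log (Pool.Agent.Y731.GV.htv x) +
          ∑ i, Pool.Agent.Y731.GV.hcomp (F i) (d i) x := rfl
    rw [h8]
    exact h1

end Pool.Agent.Results.MP_9ec3f0_nt.SparseAllVarieties
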